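import Mathlib
import Pool.Agent.Y319.MR.VH
import Pool.Agent.Y319.MR.HR

/-!
Negative answer to the measure rigidity question for higher rank class-`𝒜` actions.

For every prime `p`, the group `A` of the matrices `diag(p^a, p^b, p^c)`, `a + b + c = 0`, embedded
diagonally in `G = SL(3, ℝ) × SL(3, ℚ_p)`, is closed, of higher rank and consists of class-`𝒜`
elements. It fixes the base point `Γ` of `G/Γ`, `Γ = SL(3, ℤ[1/p])`. We construct an `A`-invariant
ergodic probability measure `μ` on `G/Γ` as the image of the Haar measure of an odometer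
`Ω = ∏ ℤ/M_j` under `ω ↦ lim U_{β_k}(τ_k(ω)) ⋯ U_{β_0}(τ_0(ω)) Γ`, where `U_β` are the root
subgroups, all roots occur infinitely often among the `β_j`, and `τ_j(ω) = p^(ω_j) D_j² / (p^(M_j) - 1)`
is small in both completions for most `ω`. The measure gives mass zero to the translates
`g[𝕃]_Γ` of all `ℚ`-subgroups `𝕃` with `𝕃(ℂ) ≠ SL(3, ℂ)`, and it is not virtually homogeneous.
-/

set_option autoImplicit false

namespace Pool.Agent.Results.MP_67388f_an.OdometerMeasure

open MeasureTheory Filter Pool.Agent.Y319.MR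

lemma exists_beta : ∃ β : ℕ → Root, ∀ r : Root, ∃ᶠ j in atTop, β j = r := by
  have hc : 0 < Fintype.card Root := Fintype.card_pos_iff.2 ⟨⟨(0, 1), by decide⟩⟩
  refine ⟨fun j => (Fintype.equivFin Root).symm ⟨j % Fintype.card Root, Nat.mod_lt _ hc⟩, fun r => ?_⟩
  rw [frequently_atTop]
  intro N
  refine ⟨(Fintype.equivFin Root r : ℕ) + Fintype.card Root * N, ?_, ?_⟩
  · have : N ≤ Fintype.card Root * N := Nat.le_mul_of_pos_left N hc
    omega
  · rw [Equiv.symm_apply_eq]
    apply Fin.ext
    show ((Fintype.equivFin Root r : ℕ) + Fintype.card Root * N) % Fintype.card Root = _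
    rw [Nat.add_mul_mod_self_left]
    exact Nat.mod_eq_of_lt (Fintype.equivFin Root r).2

/-- For every prime `p` there are a closed higher rank subgroup `A` of
`G = SL(3, ℝ) × SL(3, ℚ_p)`, whose nontrivial elements are of class-`𝒜`, and an `A`-invariant
ergodic probability measure `μ` on `G/SL(3, ℤ[1/p])`, such that `μ` is not virtually homogeneous and
such that, for all `ℚ`-subgroups `ℍ ◁ 𝕃` of `SL₃` with `ℍ(ℂ) ≠ 𝕃(ℂ)` for which some `g[𝕃]_Γ` has
positive measure, the image of `A ∩ L` in `L/H` is of higher rank, even if `A` is replaced by any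
conjugate `g A g⁻¹`. -/
theorem result (p : ℕ) [Fact p.Prime] :
    ∃ A : Subgroup (G p), IsClosedHigherRank A ∧ ConsistsOfClassA A ∧
      ∃ μ : Measure (X p), IsErgodicProb A μ ∧ ¬ IsVirtuallyHomogeneous (G p) μ ∧
        ∀ (L H : QSubgroup) (hH : H.IsNormalIn L), H.pts ℂ ≠ L.pts ℂ →
          (∃ g : G p, 0 < μ (coset g L)) → ∀ g : G p, HigherRankImage (conjBy g A) hH := by
  obtain ⟨β, hβ⟩ := exists_beta
  refine ⟨Agrp p, ⟨A_closed p, A_higherRank p⟩, ?_, mu p β, ⟨inferInstance, ergodic_mu β⟩,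
    not_vh β hβ, ?_⟩
  · rintro _ ⟨x, rfl⟩ hx
    refine aHom_classA fun h => hx ?_
    rw [h, map_one]
  · rintro L H hH hne ⟨g, hg⟩ g'
    have hrat : ∀ f ∈ L.eqs, ∀ q : SL3 ℚ,
        MvPolynomial.eval (ent (q : Matrix (Fin 3) (Fin 3) ℚ)) f = 0 := by
      intro f hf q
      by_contra hq
      exact hg.ne' (mu_coset β hβ L hf hq (isClosed_adic L) g)
    exact image_higherRank hH (fun K _ _ => pts_top_of_rat L hrat K) hne g'

end Pool.Agent.Results.MP_67388f_an.OdometerMeasure
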